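import Pool.Agent.W864.PX.DetInt
import Pool.Agent.W406.PX.Stmts

/-!
# Project W406-PX: the alternating null vector
-/

set_option autoImplicit false

namespace Pool.Agent.W864.PX

open Finset MeasureTheory

/-- the null vector from the minors -/
theorem null_sum {n : ℕ} (μ : ℕ → ℕ → ℝ) {k : ℕ} (hk : k < n) :
    ∑ i : Fin (n + 1), (-1) ^ (i : ℕ) * μ i k *
      (Matrix.of fun l j : Fin n => μ (i.succAbove l : Fin (n + 1)) j).det = 0 := by
  set A : Matrix (Fin n.succ) (Fin n.succ) ℝ := Matrix.of fun i j =>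
    Fin.cases (μ i k) (fun j => μ i j) j with hA
  have h0 : A.det = 0 := by
    refine Matrix.det_zero_of_column_eq (i := 0) (j := Fin.succ ⟨k, hk⟩) (Fin.succ_ne_zero _).symm ?_
    intro i
    simp [hA]
  rw [Matrix.det_succ_column_zero] at h0
  rw [← h0]
  refine Finset.sum_congr rfl fun i _ => ?_
  congr 1

theorem task : Pool.Agent.W406.PX.TaskNull := by
  intro m hm η hη
  obtain ⟨n, rfl⟩ : ∃ n, m = n + 1 := ⟨m - 1, by omega⟩
  set c₀ : ℝ := (1 / (4 * ((n : ℝ) + 1))) ^ NN n * η ^ n with hc₀
  refine ⟨c₀, by positivity, ?_⟩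
  intro h M a Ψ hh hM ha hint hpos hup hlo
  -- positions
  have hmono : ∀ d i : ℕ, i + d ≤ n + 1 → 0 ≤ a (i + d) - a i ∧ a (i + d) - a i ≤ 2 * h * d ∧
      (1 ≤ d → h ≤ a (i + d) - a i) := by
    intro d
    induction d with
    | zero => intro i _; simp
    | succ d ih =>
      intro i hi
      obtain ⟨h1, h2, -⟩ := ih i (by omega)
      obtain ⟨h3, h4⟩ := ha (i + d) (by omega)
      have h5 : i + (d + 1) = i + d + 1 := by ring
      rw [h5]
      push_cast
      refine ⟨by linarith, by nlinarith, fun _ => by linarith⟩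
  have hle : ∀ i j : ℕ, i ≤ j → j ≤ n + 1 → a i ≤ a j ∧ a j - a i ≤ 2 * h * (n + 1) := by
    intro i j hij hj
    obtain ⟨d, rfl⟩ := Nat.exists_eq_add_of_le hij
    obtain ⟨h1, h2, -⟩ := hmono d i hj
    refine ⟨by linarith, h2.trans ?_⟩
    have : (d : ℝ) ≤ n + 1 := by exact_mod_cast (by omega : d ≤ n + 1)
    exact mul_le_mul_of_nonneg_left this (by linarith)
  set s : ℕ → Set ℝ := fun i => Set.Icc (a i) (a (i + 1)) with hs
  set mid : ℕ → Set ℝ := fun i => Set.Ioc (a i + h / 4) (a (i + 1) - h / 4) with hmid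
  set μ : ℕ → ℕ → ℝ := fun i k => ∫ u in s i, Ψ i u * u ^ k with hμ
  have hintk : ∀ i < n + 1, ∀ k : ℕ, IntegrableOn (fun u => Ψ i u * u ^ k) (s i) := by
    intro i hi k
    exact (hint i hi).mul_continuousOn (continuous_pow k).continuousOn isCompact_Icc
  set R : ℝ := 2 * h * (n + 1) with hR
  have hRpos : 0 < R := by positivity
  -- the minors
  set D : Fin (n + 1) → ℝ := fun i =>
    (Matrix.of fun l j : Fin n => μ (i.succAbove l : Fin (n + 1)) j).det with hD
  have hDb : ∀ i, (h / 2) ^ NN n * (η * M) ^ n ≤ D i ∧ D i ≤ R ^ NN n * M ^ n := by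
    intro i
    have hlt : ∀ l l' : Fin n, l < l' → ((i.succAbove l : Fin (n + 1)) : ℕ) + 1 ≤
        ((i.succAbove l' : Fin (n + 1)) : ℕ) := by
      intro l l' hll
      have := Fin.strictMono_succAbove i hll
      exact this
    have hlt2 : ∀ l : Fin n, ((i.succAbove l : Fin (n + 1)) : ℕ) < n + 1 := fun l =>
      (i.succAbove l).2
    refine detbounds (fun l => Ψ (i.succAbove l : Fin (n + 1)))
      (fun l => s (i.succAbove l : Fin (n + 1))) (fun l => mid (i.succAbove l : Fin (n + 1)))
      (fun l => measurableSet_Icc) (fun l => measurableSet_Ioc) ?_ (fun l u => hpos _ (hlt2 l) u)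
      (fun l k _ => hintk _ (hlt2 l) k) (fun l => hint _ (hlt2 l)) (by positivity) (by positivity)
      ?_ ?_ ?_ ?_ hRpos.le
    · intro l u hu
      simp only [hmid, Set.mem_Ioc] at hu
      simp only [hs, Set.mem_Icc]
      constructor <;> linarith
    · intro l l' hll u hu u' hu'
      simp only [hs, Set.mem_Icc] at hu hu'
      have h5 := hle _ _ (hlt l l' hll) (by have := hlt2 l'; omega)
      have h6 := hle (i.succAbove l : Fin (n + 1)) ((i.succAbove l' : Fin (n + 1)) + 1)
        (by have := hlt l l' hll; omega) (by have := hlt2 l'; omega)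
      constructor
      · linarith [h5.1]
      · linarith [h6.2]
    · intro l l' hll u hu u' hu'
      simp only [hmid, Set.mem_Ioc] at hu hu'
      have h5 := hle _ _ (hlt l l' hll) (by have := hlt2 l'; omega)
      linarith [h5.1]
    · intro l
      have h5 := hlo _ (hlt2 l)
      rwa [intervalIntegral.integral_of_le] at h5
      have := (ha _ (hlt2 l)).1
      linarith
    · intro l
      have h5 := hup _ (hlt2 l)
      rw [intervalIntegral.integral_of_le (by have := (ha _ (hlt2 l)).1; linarith),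
        ← integral_Icc_eq_integral_Ioc] at h5
      exact h5
  have hRM : 0 < R ^ NN n * M ^ n := by positivity
  refine ⟨fun i => if hi : i < n + 1 then (-1) ^ i * (D ⟨i, hi⟩ / (R ^ NN n * M ^ n)) else 0,
    ?_, ?_⟩
  · intro i hi
    have hsq : ((-1 : ℝ) ^ i) * (-1) ^ i = 1 := by
      rw [← mul_pow]; simp
    simp only [dif_pos hi, ← mul_assoc, hsq, one_mul]
    obtain ⟨h5, h6⟩ := hDb ⟨i, hi⟩
    refine ⟨?_, (div_le_one hRM).2 h6⟩
    rw [le_div_iff₀ hRM]
    refine le_trans (le_of_eq ?_) h5
    rw [hc₀, hR, mul_pow η M]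
    have h7 : (h / 2) = (1 / (4 * ((n : ℝ) + 1))) * (2 * h * (n + 1)) := by
      have : ((n : ℝ) + 1) ≠ 0 := by positivity
      field_simp
      ring
    rw [h7, mul_pow (1 / (4 * ((n : ℝ) + 1))) (2 * h * ((n : ℝ) + 1))]
    ring
  · intro P hP
    have hdeg : P.natDegree < n := by omega
    have hnull : ∀ k < n, ∑ i ∈ range (n + 1), (if hi : i < n + 1 then
        (-1) ^ i * (D ⟨i, hi⟩ / (R ^ NN n * M ^ n)) else 0) * μ i k = 0 := by
      intro k hk
      rw [Finset.sum_range]
      have h5 := null_sum μ hk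
      calc _ = ∑ i : Fin (n + 1), ((-1) ^ (i : ℕ) * μ i k * D i) * (R ^ NN n * M ^ n)⁻¹ := by
            refine Finset.sum_congr rfl fun i _ => ?_
            rw [dif_pos i.2]
            simp only [Fin.eta]
            ring
        _ = 0 := by rw [← Finset.sum_mul, h5, zero_mul]
    have hmom : ∀ i < n + 1, ∫ u in (a i)..(a (i + 1)), Ψ i u * P.eval u =
        ∑ k ∈ range n, P.coeff k * μ i k := by
      intro i hi
      rw [intervalIntegral.integral_of_le (by have := (ha i hi).1; linarith),
        ← integral_Icc_eq_integral_Ioc]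
      have h5 : (fun u => Ψ i u * P.eval u) =
          fun u => ∑ k ∈ range n, P.coeff k * (Ψ i u * u ^ k) := by
        funext u
        rw [Polynomial.eval_eq_sum_range' hdeg, Finset.mul_sum]
        exact Finset.sum_congr rfl fun k _ => by ring
      rw [h5, integral_finsetSum _ fun k _ => (hintk i hi k).const_mul _]
      exact Finset.sum_congr rfl fun k _ => integral_const_mul _ _
    calc _ = ∑ i ∈ range (n + 1), ∑ k ∈ range n, P.coeff k * ((if hi : i < n + 1 then
        (-1) ^ i * (D ⟨i, hi⟩ / (R ^ NN n * M ^ n)) else 0) * μ i k) := by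
          refine Finset.sum_congr rfl fun i hi => ?_
          rw [hmom i (mem_range.1 hi), Finset.mul_sum]
          exact Finset.sum_congr rfl fun k _ => by ring
      _ = ∑ k ∈ range n, P.coeff k * ∑ i ∈ range (n + 1), ((if hi : i < n + 1 then
        (-1) ^ i * (D ⟨i, hi⟩ / (R ^ NN n * M ^ n)) else 0) * μ i k) := by
          rw [Finset.sum_comm]
          exact Finset.sum_congr rfl fun k _ => by rw [Finset.mul_sum]
      _ = 0 := Finset.sum_eq_zero fun k hk => by rw [hnull k (mem_range.1 hk), mul_zero]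

end Pool.Agent.W864.PX
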