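import Mathlib

/-!
# Determinants of moments of nonnegative functions on ordered cells
-/

set_option autoImplicit false

namespace Pool.Agent.W864.PX

open Finset MeasureTheory

/-- the determinant of the matrix of moments is the integral of a Vandermonde determinant -/
theorem detint {n : ℕ} (φ : Fin n → ℝ → ℝ) (ν : Fin n → Measure ℝ) [∀ l, SigmaFinite (ν l)]
    (hint : ∀ l, ∀ k < n, Integrable (fun u => φ l u * u ^ k) (ν l)) :
    Integrable (fun u : Fin n → ℝ => (∏ l, φ l (u l)) * (Matrix.vandermonde u).det)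
      (Measure.pi ν) ∧
    (Matrix.of fun l k : Fin n => ∫ u, φ l u * u ^ (k : ℕ) ∂(ν l)).det =
      ∫ u : Fin n → ℝ, (∏ l, φ l (u l)) * (Matrix.vandermonde u).det ∂(Measure.pi ν) := by
  have hpt : ∀ u : Fin n → ℝ, (∏ l, φ l (u l)) * (Matrix.vandermonde u).det =
      ∑ σ : Equiv.Perm (Fin n), ((Equiv.Perm.sign σ : ℤ) : ℝ) *
        ∏ l, (φ l (u l) * u l ^ ((σ l : Fin n) : ℕ)) := by
    intro u
    rw [← Matrix.det_transpose, Matrix.det_apply', Finset.mul_sum]
    refine Finset.sum_congr rfl fun σ _ => ?_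
    rw [Finset.prod_mul_distrib]
    simp only [Matrix.transpose_apply, Matrix.vandermonde_apply]
    ring
  have hi : ∀ σ : Equiv.Perm (Fin n), Integrable (fun u : Fin n → ℝ =>
      ((Equiv.Perm.sign σ : ℤ) : ℝ) * ∏ l, (φ l (u l) * u l ^ ((σ l : Fin n) : ℕ)))
      (Measure.pi ν) := by
    intro σ
    refine Integrable.const_mul ?_ _
    exact Integrable.fintype_prod (f := fun l x => φ l x * x ^ ((σ l : Fin n) : ℕ))
      fun l => hint l _ (σ l).2
  have h1 : (fun u : Fin n → ℝ => (∏ l, φ l (u l)) * (Matrix.vandermonde u).det) =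
      fun u => ∑ σ : Equiv.Perm (Fin n), ((Equiv.Perm.sign σ : ℤ) : ℝ) *
        ∏ l, (φ l (u l) * u l ^ ((σ l : Fin n) : ℕ)) := funext hpt
  rw [h1]
  refine ⟨integrable_finsetSum _ fun σ _ => hi σ, ?_⟩
  rw [integral_finsetSum _ fun σ _ => hi σ, ← Matrix.det_transpose, Matrix.det_apply']
  refine Finset.sum_congr rfl fun σ _ => ?_
  rw [integral_const_mul]
  congr 1
  rw [integral_fintype_prod_eq_prod (fun l x => φ l x * x ^ ((σ l : Fin n) : ℕ))]
  rfl

/-- the number of pairs -/
def NN (n : ℕ) : ℕ := ∑ i : Fin n, (Ioi i).card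

theorem prod_pairs {n : ℕ} (c : ℝ) : (∏ i : Fin n, ∏ _j ∈ Ioi i, c) = c ^ NN n := by
  unfold NN
  simp only [Finset.prod_const]
  rw [Finset.prod_pow_eq_pow_sum]

theorem detbounds {n : ℕ} (φ : Fin n → ℝ → ℝ) (s mid : Fin n → Set ℝ)
    (hs : ∀ l, MeasurableSet (s l)) (hm : ∀ l, MeasurableSet (mid l)) (hms : ∀ l, mid l ⊆ s l)
    (hpos : ∀ l u, 0 ≤ φ l u)
    (hint : ∀ l, ∀ k < n, IntegrableOn (fun u => φ l u * u ^ k) (s l))
    (hint0 : ∀ l, IntegrableOn (φ l) (s l))
    {R δ A B : ℝ} (hδ : 0 ≤ δ) (hA : 0 ≤ A)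
    (h1 : ∀ l l', l < l' → ∀ u ∈ s l, ∀ u' ∈ s l', 0 ≤ u' - u ∧ u' - u ≤ R)
    (h2 : ∀ l l', l < l' → ∀ u ∈ mid l, ∀ u' ∈ mid l', δ ≤ u' - u)
    (h3 : ∀ l, A ≤ ∫ u in mid l, φ l u) (h4 : ∀ l, ∫ u in s l, φ l u ≤ B) (hR : 0 ≤ R) :
    δ ^ NN n * A ^ n ≤ (Matrix.of fun l k : Fin n => ∫ u in s l, φ l u * u ^ (k : ℕ)).det ∧
      (Matrix.of fun l k : Fin n => ∫ u in s l, φ l u * u ^ (k : ℕ)).det ≤ R ^ NN n * B ^ n := by
  obtain ⟨hI, hE⟩ := detint φ (fun l => volume.restrict (s l)) (fun l k hk => hint l k hk)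
  rw [hE]
  have hmem : ∀ᵐ u ∂(Measure.pi fun l => (volume : Measure ℝ).restrict (s l)),
      ∀ l, u l ∈ s l := by
    rw [ae_all_iff]
    intro l
    exact Measure.tendsto_eval_ae_ae.eventually (ae_restrict_mem (hs l))
  have hV : ∀ u : Fin n → ℝ, (∀ l, u l ∈ s l) → 0 ≤ (Matrix.vandermonde u).det ∧
      (Matrix.vandermonde u).det ≤ R ^ NN n := by
    intro u hu
    rw [Matrix.det_vandermonde]
    constructor
    · exact Finset.prod_nonneg fun i _ => Finset.prod_nonneg fun j hj =>
        (h1 i j (mem_Ioi.1 hj) _ (hu i) _ (hu j)).1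
    · rw [← prod_pairs]
      refine Finset.prod_le_prod (fun i _ => Finset.prod_nonneg fun j hj =>
        (h1 i j (mem_Ioi.1 hj) _ (hu i) _ (hu j)).1) fun i _ => ?_
      exact Finset.prod_le_prod (fun j hj => (h1 i j (mem_Ioi.1 hj) _ (hu i) _ (hu j)).1)
        fun j hj => (h1 i j (mem_Ioi.1 hj) _ (hu i) _ (hu j)).2
  have hVm : ∀ u : Fin n → ℝ, (∀ l, u l ∈ mid l) → δ ^ NN n ≤ (Matrix.vandermonde u).det := by
    intro u hu
    rw [Matrix.det_vandermonde, ← prod_pairs]
    refine Finset.prod_le_prod (fun i _ => Finset.prod_nonneg fun j hj => hδ) fun i _ => ?_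
    exact Finset.prod_le_prod (fun j hj => hδ) fun j hj => h2 i j (mem_Ioi.1 hj) _ (hu i) _ (hu j)
  have hprod : ∀ u : Fin n → ℝ, 0 ≤ ∏ l, φ l (u l) := fun u =>
    Finset.prod_nonneg fun l _ => hpos l _
  constructor
  · -- lower bound
    have hIm : Integrable (fun u : Fin n → ℝ => δ ^ NN n * ∏ l, (mid l).indicator (φ l) (u l))
        (Measure.pi fun l => (volume : Measure ℝ).restrict (s l)) := by
      refine Integrable.const_mul ?_ _
      exact Integrable.fintype_prod (f := fun l x => (mid l).indicator (φ l) x)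
        fun l => (hint0 l).indicator (hm l)
    have h5 : δ ^ NN n * A ^ n ≤ ∫ u : Fin n → ℝ, δ ^ NN n * ∏ l, (mid l).indicator (φ l) (u l)
        ∂(Measure.pi fun l => (volume : Measure ℝ).restrict (s l)) := by
      rw [integral_const_mul, integral_fintype_prod_eq_prod (fun l x => (mid l).indicator (φ l) x)]
      refine mul_le_mul_of_nonneg_left ?_ (pow_nonneg hδ _)
      calc A ^ n = ∏ _l : Fin n, A := by simp
        _ ≤ _ := by
          refine Finset.prod_le_prod (fun _ _ => hA) fun l _ => ?_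
          rw [integral_indicator (hm l), Measure.restrict_restrict (hm l),
            Set.inter_eq_left.2 (hms l)]
          exact h3 l
    refine h5.trans (integral_mono_ae hIm hI ?_)
    filter_upwards [hmem] with u hu
    by_cases hmu : ∀ l, u l ∈ mid l
    · have : ∏ l, (mid l).indicator (φ l) (u l) = ∏ l, φ l (u l) :=
        Finset.prod_congr rfl fun l _ => Set.indicator_of_mem (hmu l) _
      simp only [this]
      rw [mul_comm]
      exact mul_le_mul_of_nonneg_left (hVm u hmu) (hprod u)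
    · push Not at hmu
      obtain ⟨l, hl⟩ := hmu
      have : ∏ l, (mid l).indicator (φ l) (u l) = 0 :=
        Finset.prod_eq_zero (mem_univ l) (Set.indicator_of_notMem hl _)
      simp only [this, mul_zero]
      exact mul_nonneg (hprod u) (hV u hu).1
  · -- upper bound
    have hIp : Integrable (fun u : Fin n → ℝ => R ^ NN n * ∏ l, φ l (u l))
        (Measure.pi fun l => (volume : Measure ℝ).restrict (s l)) := by
      refine Integrable.const_mul ?_ _
      exact Integrable.fintype_prod (f := fun l x => φ l x) fun l => hint0 l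
    have h5 : ∫ u : Fin n → ℝ, R ^ NN n * ∏ l, φ l (u l)
        ∂(Measure.pi fun l => (volume : Measure ℝ).restrict (s l)) ≤ R ^ NN n * B ^ n := by
      rw [integral_const_mul, integral_fintype_prod_eq_prod (fun l x => φ l x)]
      refine mul_le_mul_of_nonneg_left ?_ (pow_nonneg hR _)
      calc _ ≤ ∏ _l : Fin n, B := Finset.prod_le_prod
            (fun l _ => integral_nonneg fun u => hpos l u) fun l _ => h4 l
        _ = B ^ n := by simp
    refine le_trans (integral_mono_ae hI hIp ?_) h5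
    filter_upwards [hmem] with u hu
    rw [mul_comm]
    exact mul_le_mul_of_nonneg_right (hV u hu).2 (hprod u)

end Pool.Agent.W864.PX
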